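import Mathlib
import Pool.Agent.W247.OF

/-!
# The pattern `M` has an almost linear extremal function
-/

set_option autoImplicit false

namespace Pool.Agent.Results.MP_1bff7a_co.AlmostLinearPattern

open Filter Asymptotics

/-- The `n × m` 0-1 matrix `A` contains the `k × l` pattern `P`: some rows `r₁ < ... < r_k` and
columns `c₁ < ... < c_l` of `A` carry a `1` wherever `P` does. -/
def Contains {n m k l : ℕ} (A : Matrix (Fin n) (Fin m) Bool) (P : Matrix (Fin k) (Fin l) Bool) :
    Prop :=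
  ∃ r : Fin k → Fin n, StrictMono r ∧ ∃ c : Fin l → Fin m, StrictMono c ∧
    ∀ i j, P i j = true → A (r i) (c j) = true

/-- The number of `1` entries. -/
def ones {n m : ℕ} (A : Matrix (Fin n) (Fin m) Bool) : ℕ :=
  (Finset.univ.filter fun p : Fin n × Fin m => A p.1 p.2 = true).card

/-- `Ex(P,n)`: the largest number of `1` entries of an `n × n` 0-1 matrix that avoids `P`. -/
noncomputable def Ex {k l : ℕ} (P : Matrix (Fin k) (Fin l) Bool) (n : ℕ) : ℕ :=
  sSup {t : ℕ | ∃ A : Matrix (Fin n) (Fin n) Bool, ¬ Contains A P ∧ ones A = t}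

/-- The pattern of the problem. -/
def M : Matrix (Fin 4) (Fin 4) Bool :=
  !![true, false, true, false;
     false, true, false, true;
     false, false, true, false;
     true, false, false, true]

/-- The one entries of `M`. -/
def MS : Finset (Fin 4 × Fin 4) := Finset.univ.filter fun p => M p.1 p.2 = true

/-- A graph with an injective labelling such that every vertex has at most one neighbour with a
smaller label has no cycle. -/
theorem acyclic_of_label {V : Type} (G : SimpleGraph V) (f : V → ℕ) (hf : Function.Injective f)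
    (h : ∀ v a b, G.Adj v a → G.Adj v b → f a < f v → f b < f v → a = b) : G.IsAcyclic := by
  classical
  intro v c hc
  obtain ⟨w, hw, hmax⟩ := Finset.exists_max_image c.support.toFinset f ⟨v, by simp⟩
  have hw' : w ∈ c.support := by simpa using hw
  have hc' := hc.rotate hw'
  obtain ⟨d, hd⟩ : ∃ d, d = c.rotate w hw' := ⟨_, rfl⟩
  rw [← hd] at hc'
  have hsupp : ∀ x ∈ d.support, f x ≤ f w := by
    intro x hx
    rw [hd, SimpleGraph.Walk.mem_support_rotate_iff] at hx
    exact hmax x (by simpa using hx)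
  have hnil : ¬ d.Nil := hc'.not_nil
  have h1 : G.Adj w d.snd := d.adj_snd hnil
  have h2 : G.Adj w d.penultimate := (d.adj_penultimate hnil).symm
  have h3 : f d.snd < f w := lt_of_le_of_ne (hsupp _ (d.getVert_mem_support 1))
    (fun e => h1.ne (hf e).symm)
  have h4 : f d.penultimate < f w := lt_of_le_of_ne (hsupp _ (d.getVert_mem_support _))
    (fun e => h2.ne (hf e).symm)
  exact hc'.snd_ne_penultimate (h w _ _ h1 h2 h3 h4)

/-- The labelling along the path. -/
def lab : Fin 4 ⊕ Fin 4 → ℕ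
  | Sum.inl i => ![2, 6, 0, 4] i
  | Sum.inr j => ![3, 7, 1, 5] j

theorem acyclic_M : (SimpleGraph.fromRel (fun x y : Fin 4 ⊕ Fin 4 =>
    ∃ i j, x = Sum.inl i ∧ y = Sum.inr j ∧ (i, j) ∈ MS)).IsAcyclic := by
  have hinj : Function.Injective lab := by decide
  have key : ∀ i j, (i, j) ∈ MS →
      lab (Sum.inl i) + 1 = lab (Sum.inr j) ∨ lab (Sum.inr j) + 1 = lab (Sum.inl i) := by decide
  have hadj : ∀ v a, (SimpleGraph.fromRel (fun x y : Fin 4 ⊕ Fin 4 =>
      ∃ i j, x = Sum.inl i ∧ y = Sum.inr j ∧ (i, j) ∈ MS)).Adj v a →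
      lab v + 1 = lab a ∨ lab a + 1 = lab v := by
    rintro v a ⟨-, ⟨i, j, rfl, rfl, h⟩ | ⟨i, j, rfl, rfl, h⟩⟩
    · exact key i j h
    · exact (key i j h).symm
  apply acyclic_of_label _ lab hinj
  intro v a b ha hb hlt hlt'
  apply hinj
  have h1 := hadj v a ha
  have h2 := hadj v b hb
  omega

theorem contains_iff {n : ℕ} (A : Matrix (Fin n) (Fin n) Bool) :
    Contains A M ↔ ∃ f : Fin 4 → Fin n, StrictMono f ∧ ∃ g : Fin 4 → Fin n, StrictMono g ∧
      ∀ p ∈ MS, (f p.1, g p.2) ∈ (Finset.univ.filter fun p : Fin n × Fin n => A p.1 p.2 = true) := by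
  unfold Contains MS
  simp only [Finset.mem_filter, Finset.mem_univ, true_and, Prod.forall]

/-- **For every real `c > 1`, `Ex(M,n) = o(n^c)`.** -/
theorem result (c : ℝ) (hc : 1 < c) :
    (fun n : ℕ => (Ex M n : ℝ)) =o[atTop] (fun n : ℕ => (n : ℝ) ^ c) := by
  rw [isLittleO_iff]
  intro ε hε
  obtain ⟨N, hN⟩ := Pool.Agent.W247.OF.main 4 4 MS acyclic_M c hc ε hε
  filter_upwards [eventually_ge_atTop N] with n hn
  have h0 : (0 : ℝ) ≤ (n : ℝ) ^ c := Real.rpow_nonneg (Nat.cast_nonneg n) _
  rw [Real.norm_of_nonneg (Nat.cast_nonneg _), Real.norm_of_nonneg h0]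
  have h1 : Ex M n ≤ ⌊ε * (n : ℝ) ^ c⌋₊ := by
    apply csSup_le'
    rintro t ⟨A, hA, rfl⟩
    apply Nat.le_floor
    refine hN n hn _ ?_
    rwa [contains_iff] at hA
  exact (Nat.cast_le.2 h1).trans (Nat.floor_le (by positivity))

end Pool.Agent.Results.MP_1bff7a_co.AlmostLinearPattern
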